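import Mathlib

namespace Pool.Agent.Results.MP_940262_co.Counter

open SimpleGraph

/-- k-degree of v: number of other vertices at distance at most k -/
noncomputable def kdeg {V : Type} (G : SimpleGraph V) (k : ℕ) (v : V) : ℕ :=
  {u | u ≠ v ∧ G.edist u v ≤ k}.ncard

/-- minimum k-degree -/
noncomputable def delta {V : Type} (G : SimpleGraph V) (k : ℕ) : ℕ := sInf (Set.range (kdeg G k))

def KDominating {V : Type} (G : SimpleGraph V) (k : ℕ) (D : Set V) : Prop :=
  ∀ v, ∃ d ∈ D, G.edist v d ≤ k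

/-- k-domination number -/
noncomputable def gamma {V : Type} (G : SimpleGraph V) (k : ℕ) : ℕ :=
  sInf {m | ∃ D : Finset V, KDominating G k D ∧ D.card = m}

lemma edist_two {V : Type} (G : SimpleGraph V) (u v : V) :
    G.edist u v ≤ (2 : ℕ) ↔ (u = v ∨ G.Adj u v ∨ ∃ w, G.Adj u w ∧ G.Adj w v) := by
  constructor
  · intro h
    have hr : G.Reachable u v := by
      apply reachable_of_edist_ne_top
      exact ne_top_of_le_ne_top (by simp) h
    obtain ⟨p, hp⟩ := hr.exists_walk_length_eq_edist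
    rw [← hp] at h
    have h2 : p.length ≤ 2 := by exact_mod_cast h
    match p, h2 with
    | .nil, _ => exact Or.inl rfl
    | .cons a .nil, _ => exact Or.inr (Or.inl a)
    | .cons a (.cons b .nil), _ => exact Or.inr (Or.inr ⟨_, a, b⟩)
    | .cons _ (.cons _ (.cons _ _)), h => simp at h
  · rintro (rfl | h | ⟨w, a, b⟩)
    · simp
    · rw [edist_eq_one_iff_adj.2 h]; norm_num
    · simpa using G.edist_le (Walk.cons a (Walk.cons b Walk.nil))

def M : SimpleGraph (Fin 16) where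
  Adj a b := a - b = 1 ∨ a - b = 15 ∨ a - b = 8
  symm := ⟨by decide +kernel⟩
  loopless := ⟨by decide +kernel⟩

instance : DecidableRel M.Adj := fun a b =>
  inferInstanceAs (Decidable (a - b = 1 ∨ a - b = 15 ∨ a - b = 8))

def near (u v : Fin 16) : Prop := u = v ∨ M.Adj u v ∨ ∃ w, M.Adj u w ∧ M.Adj w v

instance : DecidableRel near := fun a b => by unfold near; infer_instance

lemma f1 : ∀ v : Fin 16, (Finset.univ.filter (fun u => u ≠ v ∧ near u v)).card = 7 := by
  decide +kernel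

lemma f2 : ∀ a b : Fin 16, ∃ u, ¬ near u a ∧ ¬ near u b := by decide +kernel

lemma f3 : ∀ u : Fin 16, near u 0 ∨ near u 1 ∨ near u 4 := by decide +kernel

lemma f4 : ∀ x u : Fin 16, u ≠ x → ∃ d, d ≠ x ∧ (d = x + 6 ∨ d = x + 10) ∧
    (u = d ∨ M.Adj u d ∨ ∃ w, w ≠ x ∧ M.Adj u w ∧ M.Adj w d) := by decide +kernel

lemma gamma_M : gamma M 2 = 3 := by
  have h3 : 3 ∈ {m | ∃ D : Finset (Fin 16), KDominating M 2 D ∧ D.card = m} := by
    refine ⟨{0, 1, 4}, fun v => ?_, by decide⟩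
    rcases f3 v with h | h | h
    · exact ⟨0, by simp, (edist_two _ _ _).2 h⟩
    · exact ⟨1, by simp, (edist_two _ _ _).2 h⟩
    · exact ⟨4, by simp, (edist_two _ _ _).2 h⟩
  apply le_antisymm (Nat.sInf_le h3)
  obtain ⟨D, h1, h2⟩ := Nat.sInf_mem ⟨3, h3⟩
  by_contra hlt
  have hc : D.card ≤ 2 := by
    unfold gamma at hlt
    omega
  obtain ⟨a, b, hab⟩ : ∃ a b, D ⊆ {a, b} := by
    rcases Nat.lt_or_ge D.card 2 with h | h
    · obtain ⟨a, ha⟩ := Finset.card_le_one_iff_subset_singleton.1 (Nat.lt_succ_iff.1 h)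
      exact ⟨a, a, by simpa using ha⟩
    · obtain ⟨a, b, -, h⟩ := Finset.card_eq_two.1 (le_antisymm hc h)
      exact ⟨a, b, h.le⟩
  obtain ⟨u, u1, u2⟩ := f2 a b
  obtain ⟨d, d1, d2⟩ := h1 u
  have := hab d1
  simp only [Finset.mem_insert, Finset.mem_singleton] at this
  rcases this with rfl | rfl
  · exact u1 ((edist_two _ _ _).1 d2)
  · exact u2 ((edist_two _ _ _).1 d2)

theorem result : ∃ (n : ℕ) (G : SimpleGraph (Fin n)), G.Connected ∧ gamma G 2 = 3 ∧
    (∀ v, gamma (G.induce {u | u ≠ v}) 2 < gamma G 2) ∧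
    n < (delta G 2 + 1) * (gamma G 2 - 1) + 1 := by
  refine ⟨16, M, by decide +kernel, gamma_M, fun x => ?_, ?_⟩
  · rw [gamma_M]
    have h1 : ∀ x : Fin 16, x + 6 ≠ x ∧ x + 10 ≠ x := by decide
    refine lt_of_le_of_lt (Nat.sInf_le ⟨{⟨x + 6, (h1 x).1⟩, ⟨x + 10, (h1 x).2⟩}, ?_, rfl⟩)
      (Nat.lt_succ_of_le Finset.card_le_two)
    rintro ⟨u, hu⟩
    obtain ⟨d, d1, d2, d3⟩ := f4 x u hu
    refine ⟨⟨d, d1⟩, by simpa using d2, (edist_two _ _ _).2 ?_⟩
    rcases d3 with h | h | ⟨w, a, b, c⟩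
    · exact Or.inl (Subtype.ext h)
    · exact Or.inr (Or.inl h)
    · exact Or.inr (Or.inr ⟨⟨w, a⟩, b, c⟩)
  · have : Set.range (kdeg M 2) = {7} := by
      have h : ∀ v, kdeg M 2 v = 7 := by
        intro v
        rw [← f1 v, ← Set.ncard_coe_finset]
        unfold kdeg
        congr 1
        ext u
        simp only [Set.mem_setOf_eq, Finset.coe_filter, Finset.mem_univ, true_and]
        rw [edist_two]
        rfl
      ext m
      simp [h, eq_comm]
    rw [gamma_M, delta, this]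
    simp

end Pool.Agent.Results.MP_940262_co.Counter
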